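import Pool.Agent.V7H48.JC.Main

/-!
# Edmonds' problem: Jordan certificates for upper bounds of the symbolic rank

For a matrix `M` of polynomials over a field `F` in any set of variables, `symRank M` is its rank
over the field of rational functions.  `Certifies M r P Q e f` says that the constant matrices
`P, Q, e, f` form a Jordan certificate for the bound `rank M ≤ r`: the corners
`(1 - e f) x (1 - f e)` vanish for all `x` in the Jordan hull (the smallest space of matrices which
contains the coefficient matrices of `P M Q` and is closed under `x f x` and `x f y f x`), and
`(a - rank P) + (b - rank Q) + rank e ≤ r`.  Such certificates are checked by linear algebra over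
`F`.  The theorem: they are sound over every field; they exist for every bound given by the
noncommutative rank, and also where that rank is too large (generic alternating matrices of odd
order); they are complete if the coefficient matrices span one half of a regular Jordan pair; this
is so over ordered fields, in particular over the rational numbers, for spaces closed under
`x yᵀ x`, and then one small integer point is enough as certificate.
-/

set_option autoImplicit false

namespace Pool.Agent.V7H48.Parked.JordanCertificates

open Matrix Module MvPolynomial Pool.Agent.V7H48.JC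

universe u v

/-- Here `M` is any matrix of polynomials and `A` is any list of constant matrices over any
field. -/
theorem result (F : Type u) [Field F] (σ : Type v) (a b n r : ℕ)
    (M : Matrix (Fin a) (Fin b) (MvPolynomial σ F)) (A : Fin n → Matrix (Fin a) (Fin b) F)
    (ℬ : Submodule F (Matrix (Fin b) (Fin a) F)) :
    -- (1) soundness
    (HasCert M r → symRank M ≤ r) ∧
    -- (2) every bound given by the noncommutative rank has a certificate
    (HasSubspace M r → HasCert M r) ∧
    -- (3) generic alternating matrices of odd order: certificates below the noncommutative rank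
    (∀ m, 1 ≤ m →
      HasCert (genAlt F (2 * m + 1)) (2 * m) ∧ ¬ HasSubspace (genAlt F (2 * m + 1)) (2 * m)) ∧
    -- (4) completeness for regular Jordan pairs
    (RegularPair (spn A) ℬ →
      (∃ e ∈ spn A, e.rank = symRank (pencil A)) ∧
      (∀ e ∈ spn A, e.rank = symRank (pencil A) ↔ ∀ j, FirstOrder e (A j)) ∧
      (symRank (pencil A) ≤ r ↔ HasCert (pencil A) r)) ∧
    -- (5) ordered fields: spaces closed under `x yᵀ x` have small certificates
    (∀ [LinearOrder F] [IsStrictOrderedRing F], TClosed A →
      (∃ ℬ, RegularPair (spn A) ℬ) ∧ (symRank (pencil A) ≤ r ↔
        ∃ c : Fin n → ℕ, (∀ i, c i ≤ min a b) ∧ PointCert A r (∑ i, (c i : F) • A i))) := by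
  refine ⟨?_, ?_, ?_, ?_, ?_⟩
  · rintro ⟨P, Q, e, f, h⟩
    exact h.sound
  · rintro ⟨U, h⟩
    exact cert_of_shrunk M r U h
  · intro m hm
    refine ⟨⟨1, 1, cert_genAlt m⟩, ?_⟩
    rintro ⟨U, hU⟩
    have h1 := not_shrunk (F := F) (N := 2 * m + 1) (by omega) U
    have h2 := Submodule.finrank_le U
    rw [Module.finrank_fin_fun] at h2
    omega
  · rintro ⟨h, hreg⟩
    obtain ⟨h1, h2, h3⟩ := regular_pair h hreg
    exact ⟨h1, h2, h3 r⟩
  · intro _ _ h
    exact ⟨⟨_, h.pair, fun x hx => h.regular hx⟩, h.main r⟩

end Pool.Agent.V7H48.Parked.JordanCertificates
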